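import Pool.Agent.Y217.NV.Nev
import Pool.Agent.Y776.NV.Zero
import Pool.Agent.Y369.NV.Pole
import Pool.Agent.Y465.NV.NDG
import Pool.Agent.Y74.NV.Grid
import Pool.Agent.Y813.NV.Lac
import Pool.Agent.Y235.NV.Pts
import Pool.Agent.Y43.NV.Dense
import Pool.Agent.Y248.NV.Exc
import Pool.Agent.Y899.NV.Finp

/-!
# Poles against zeros for sequences of Nevanlinna functions, in all rectangles

One sequence of rational Nevanlinna functions `m j` whose poles become dense in `(-1, 1)`, which stays away from the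
constant function `g = i`, and such that for every rectangle `U` around a subinterval of `(-1, 1)` the number of poles of
`m j` in `U` minus the number of zeros of `m j - i` in `U` is unbounded.
-/

set_option autoImplicit false

open Filter

namespace Pool.Agent.Results.MP_9bfa98_an.RectangleExcess

/-- `m` is a Nevanlinna function: meromorphic on the whole plane, analytic off the real axis, with
`Im m > 0` in the open upper half plane and `Im m < 0` in the open lower half plane. -/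
structure IsNevanlinna (m : ℂ → ℂ) : Prop where
  meromorphic : ∀ z : ℂ, MeromorphicAt m z
  analytic : ∀ z : ℂ, z.im ≠ 0 → AnalyticAt ℂ m z
  im_pos : ∀ z : ℂ, 0 < z.im → 0 < (m z).im
  im_neg : ∀ z : ℂ, z.im < 0 → (m z).im < 0

/-- The number of zeros of `f` in `U`, with multiplicity (supremum over the finite subsets of `U`). -/
noncomputable def zeroCount (f : ℂ → ℂ) (U : Set ℂ) : ℕ∞ :=
  ⨆ F : {F : Finset ℂ // (F : Set ℂ) ⊆ U}, ((∑ z ∈ F.1, (meromorphicOrderAt f z).untop₀.toNat : ℕ) : ℕ∞)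

/-- The number of poles of `f` in `U`, with multiplicity (supremum over the finite subsets of `U`). -/
noncomputable def poleCount (f : ℂ → ℂ) (U : Set ℂ) : ℕ∞ :=
  ⨆ F : {F : Finset ℂ // (F : Set ℂ) ⊆ U}, ((∑ z ∈ F.1, (-(meromorphicOrderAt f z).untop₀).toNat : ℕ) : ℕ∞)

/-- The open rectangle `(x₁, x₂) × (-h, h)`. -/
def rectangle (x₁ x₂ h : ℝ) : Set ℂ := {z : ℂ | x₁ < z.re ∧ z.re < x₂ ∧ |z.im| < h}

/-- There is one sequence of Nevanlinna functions `m j` such that the number of poles of `m j` in every subset of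
`(-1, 1)` with nonempty interior tends to infinity, such that `|m j (z) - i| ≥ 1/2` for all `j` and all `z` with
`Im z ≥ 12` (so that no subsequence converges to the constant `i` in the upper half plane), and such that for every
rectangle `U = (x₁, x₂) × (-h, h)` with `-1 < x₁ < x₂ < 1` the numbers of poles of `m j` and of zeros of `m j - i` in `U`
are finite and their difference is unbounded: for every `C` there is `j` with `#zeros + C ≤ #poles`. -/
theorem result : ∃ m : ℕ → ℂ → ℂ, (∀ j, IsNevanlinna (m j)) ∧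
    (∀ J : Set ℝ, J ⊆ Set.Ioo (-1 : ℝ) 1 → (interior J).Nonempty →
      Tendsto (fun j => poleCount (m j) ((fun x : ℝ => (x : ℂ)) '' J)) atTop (nhds ⊤)) ∧
    (∀ j, ∀ z : ℂ, 12 ≤ z.im → 1 / 2 ≤ ‖m j z - Complex.I‖) ∧
    ∀ x₁ x₂ h : ℝ, -1 < x₁ → x₁ < x₂ → x₂ < 1 → 0 < h →
      (∀ j, poleCount (m j) (rectangle x₁ x₂ h) < ⊤ ∧
        zeroCount (fun z => m j z - Complex.I) (rectangle x₁ x₂ h) < ⊤) ∧
      ∀ C : ℕ, ∃ j, zeroCount (fun z => m j z - Complex.I) (rectangle x₁ x₂ h) + C ≤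
        poleCount (m j) (rectangle x₁ x₂ h) := by
  classical
  refine ⟨Y922.NV.mm, fun j => ?_, fun J hJ hJ' => ?_, fun j z hz => ?_, fun x₁ x₂ h h1 h2 h3 h4 => ⟨fun j => ⟨?_, ?_⟩, ?_⟩⟩
  · obtain ⟨p1, p2, -, -⟩ := Y235.NV.t_PTS j
    obtain ⟨a, b, c, d⟩ := Y217.NV.t_NEV _ (Y922.NV.idx j) (Y922.NV.pt j) p1 p2
    exact ⟨a, b, c, d⟩
  · rw [ENat.tendsto_nhds_top_iff_natCast_lt]
    intro K
    filter_upwards [Y43.NV.Dense.t_DENSE Y369.NV.t_POLE Y74.NV.t_grid Y235.NV.t_PTS J hJ hJ' (K + 1)] with j hj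
    refine lt_of_lt_of_le ?_ hj
    exact_mod_cast Nat.lt_succ_self K
  · obtain ⟨p1, p2, p3, -⟩ := Y235.NV.t_PTS j
    exact Y465.NV.t_NDG _ (Y922.NV.idx j) (Y922.NV.pt j) p1 p2 p3 z hz
  · obtain ⟨p1, p2, -, -⟩ := Y235.NV.t_PTS j
    exact lt_of_le_of_lt (Y899.NV.t_FINP _ (Y922.NV.idx j) (Y922.NV.pt j) p1 p2 _) (ENat.natCast_lt_top _)
  · obtain ⟨p1, p2, -, -⟩ := Y235.NV.t_PTS j
    exact lt_of_le_of_lt (Y776.NV.t_ZERO _ (Y922.NV.idx j) (Y922.NV.pt j) p1 p2 _) (ENat.natCast_lt_top _)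
  · exact Y248.NV.t_EXC Y776.NV.t_ZERO Y369.NV.t_POLE Y74.NV.t_grid Y813.NV.t_LAC Y235.NV.t_PTS x₁ x₂ h h1 h2 h3 h4

end Pool.Agent.Results.MP_9bfa98_an.RectangleExcess
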